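import Pool.Agent.LIX.Final

/-!
# MP_a9da24_gt, Q1 (disproof)

The local index of a connected surface in a tetrahedron with well-defined local index is not determined by its Euler
characteristic and its total boundary length.  The pair is `(-1, 12)`: a pair of pants whose boundary consists
of three parallel quadrilaterals has local index at most 2; the once-punctured torus whose boundary is the 12-gon of
the helicoid has local index 3; both local indices are well defined.

Definitions: `Pool/Agent/LIX/Defs.lean`.  Compressing disks miss the boundary sphere; edge-compressing disks
meet it exactly in the arc `β` on an edge; a set of isotopy classes of disks is a simplex of the disk complex iff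
the classes have representatives whose pairwise intersections lie in the 1-skeleton.
-/

set_option autoImplicit false

namespace Pool.Agent.Results.MP_a9da24_gt.LocalIndex

open Pool.Agent.LIX

/-- Two connected surfaces in the standard tetrahedron, both with well-defined local index, both of Euler
characteristic `-1` and total boundary length `12`; the first has local index at most `2`, the second has local
index `3`. -/
theorem result : ∃ H H' : Set (Fin 4 → ℝ),
    IsSurf stdTet H ∧ IsSurf stdTet H' ∧ IsConnected H ∧ IsConnected H' ∧
    HasChi H (-1) ∧ HasChi H' (-1) ∧ len stdTet H = 12 ∧ len stdTet H' = 12 ∧
    WellDef stdTet H ∧ WellDef stdTet H' ∧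
    (∃ i ≤ 2, HasIndex stdTet H i) ∧ HasIndex stdTet H' 3 :=
  Pool.Agent.LIX.main

end Pool.Agent.Results.MP_a9da24_gt.LocalIndex
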